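import Pool.Agent.H51Q.Ratio

/-!
MP_a87669_lc: the number of adjacency questions needed to colour the random graph.

A deterministic adaptive algorithm, with no bound on its computations, asks at most `n ^ (1 + δ)`
questions of the form `is {u, v} an edge?` about `G(n,p)` and then outputs a colouring. The best
ratio which can be reached is `1 / δ` (for `0 < δ < 1`): every smaller ratio fails, even for
families of `N` algorithms (random seeds, advice), and every larger one is reached. The lower bound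
holds for all large families of disjoint independent sets, not only for colourings.
-/

set_option autoImplicit false

namespace Pool.Agent.Results.MP_a87669_lc.QueryThreshold

open Pool.Agent.H85.Online Pool.Agent.H51Q

theorem result (p : ℝ) (h0 : 0 < p) (h1 : p < 1) :
    (∀ δ r : ℝ, 0 ≤ δ → 0 ≤ r → δ * r < 1 → ∃ c : ℝ, 0 < c ∧ ∀ a : ℝ, 0 ≤ a →
      ∃ n₀ : ℕ, ∀ n : ℕ, n₀ ≤ n → ∀ (N q : ℕ) (A : Fin N → Algo n),
      (q : ℝ) ≤ (n : ℝ) ^ (1 + δ) →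
      Prob p (fun G => ∃ i, Proper G ((A i).output q G) ∧
        (numCol ((A i).output q G) : ℝ) ≤ r * G.chromaticNumber.toNat) ≤
        N * (n : ℝ) ^ (-(c * n)) + (n : ℝ) ^ (-a)) ∧
    (∀ δ r a : ℝ, 0 < δ → δ < 1 → 1 < δ * r → 0 ≤ a →
      ∃ n₀ : ℕ, ∀ n : ℕ, n₀ ≤ n → ∃ A : Algo n,
      (∀ G, Proper G (A.output ⌊(n : ℝ) ^ (1 + δ)⌋₊ G)) ∧
      Prob p (fun G => ¬ (numCol (A.output ⌊(n : ℝ) ^ (1 + δ)⌋₊ G) : ℝ) ≤
        r * G.chromaticNumber.toNat) ≤ (n : ℝ) ^ (-a)) ∧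
    (∀ δ ε : ℝ, 0 ≤ δ → 0 < ε → ∃ c : ℝ, 0 < c ∧
      ∃ n₀ : ℕ, ∀ n : ℕ, n₀ ≤ n → ∀ (N q : ℕ) (A : Fin N → Algo n) (m : ℝ),
      (q : ℝ) ≤ (n : ℝ) ^ (1 + δ) → (n : ℝ) ^ (1 - c) ≤ m →
      Prob p (fun G => ∃ i, ∃ R,
        Good (A i) q m ((2 * δ + ε) * Real.logb (1 / (1 - p)) n) R G) ≤
        N * (n : ℝ) ^ (-(c * m))) := by
  refine ⟨?_, ?_, ?_⟩
  · intro δ r hδ hr hδr
    obtain ⟨c, hc, h⟩ := ratio_lower h0 h1 hδ hr hδr
    refine ⟨c, hc, fun a ha => ?_⟩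
    obtain ⟨n₀, hn₀⟩ := Filter.eventually_atTop.1 (h a ha)
    exact ⟨n₀, fun n hn N q A hq => hn₀ n hn N q A hq⟩
  · intro δ r a hδ0 hδ1 hδr ha
    obtain ⟨n₀, hn₀⟩ := Filter.eventually_atTop.1 (ratio_upper h0 h1 hδ0 hδ1 hδr ha)
    exact ⟨n₀, fun n hn => hn₀ n hn⟩
  · intro δ ε hδ hε
    obtain ⟨c, hc, h⟩ := lower_family h0 h1 hδ hε
    obtain ⟨n₀, hn₀⟩ := Filter.eventually_atTop.1 h
    exact ⟨c, hc, n₀, fun n hn N q A m hq hm => hn₀ n hn N q A m hq hm⟩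

end Pool.Agent.Results.MP_a87669_lc.QueryThreshold
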