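import Pool.Agent.SD81.RatioD
import Pool.Agent.SD81.Upper

/-!
MP_a87669_lc: the memory needed to colour the random graph in one pass.

A one-pass algorithm learns the graph pair by pair, in an order `l` of the pairs of vertices which
is known in advance, and keeps a state from a finite set; the last state determines the colouring
which it returns. There is no bound on its computations. With `2 ^ (n ^ (1 + β))` states, that is
with `n ^ (1 + β)` bits of memory, the best ratio is `1 / β`: for almost every order of the pairs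
every smaller ratio fails, also for algorithms which may fail to return a proper colouring, and
for every order every larger ratio is reached, by an algorithm which never fails.
-/

set_option autoImplicit false

namespace Pool.Agent.Results.MP_a87669_lc.StreamingMemory

open Pool.Agent.H85.Online Pool.Agent.SB81

theorem result (p : ℝ) (h0 : 0 < p) (h1 : p < 1) :
    (∀ β ρ a : ℝ, 0 ≤ β → β ≤ 1 → 0 ≤ ρ → ρ * β < 1 → ∃ n₀ : ℕ, ∀ n : ℕ, n₀ ≤ n →
      ({l : List (Sym2 (Fin n)) | IsOrder l ∧ ¬ ∀ (Q : Type) [Fintype Q] (A : PassAlg n Q),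
          (Fintype.card Q : ℝ) ≤ 2 ^ ((n : ℝ) ^ (1 + β)) →
          Prob p (fun G => A.Proper l G ∧
            (A.numColours l G : ℝ) ≤ ρ * G.chromaticNumber.toNat) ≤ (n : ℝ) ^ (-a)}.ncard : ℝ)
        ≤ (n : ℝ) ^ (-a) * ({l : List (Sym2 (Fin n)) | IsOrder l}.ncard : ℝ)) ∧
    (∀ β ρ a : ℝ, 0 < β → β ≤ 1 → 1 < ρ * β → ∃ n₀ : ℕ, ∀ n : ℕ, n₀ ≤ n →
      ∀ l : List (Sym2 (Fin n)), IsOrder l →
      ∃ (Q : Type) (_ : Fintype Q) (A : PassAlg n Q),
        (Fintype.card Q : ℝ) ≤ 2 ^ ((n : ℝ) ^ (1 + β)) ∧ (∀ G, A.Proper l G) ∧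
        Prob p (fun G => ρ * G.chromaticNumber.toNat < (A.numColours l G : ℝ))
          ≤ (n : ℝ) ^ (-a)) := by
  refine ⟨?_, ?_⟩
  · intro β ρ a hβ0 hβ1 hρ hρβ
    obtain ⟨n₀, hn₀⟩ := Filter.eventually_atTop.1
      (Pool.Agent.SD81.ratio_lower h0 h1 hβ0 hβ1 hρ hρβ a)
    refine ⟨n₀, fun n hn => ?_⟩
    refine le_trans (le_of_eq ?_) (hn₀ n hn)
    congr 2
    ext l
    refine and_congr_right fun _ => not_congr ?_
    exact ⟨fun h Q _ hQ A => h Q A hQ, fun h Q _ A hQ => h Q hQ A⟩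
  · intro β ρ a hβ0 hβ1 hρβ
    obtain ⟨n₀, hn₀⟩ := Filter.eventually_atTop.1
      (Pool.Agent.SD81.ratio_upper h0 h1 hβ0 hβ1 hρβ a)
    exact ⟨n₀, fun n hn => hn₀ n hn⟩

end Pool.Agent.Results.MP_a87669_lc.StreamingMemory
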