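import Pool.Agent.H61S.ColourLower
import Pool.Agent.H61S.Upper

/-!
MP_a87669_lc: the memory needed by one-pass algorithms which read `G(n,p)` vertex by vertex.

A deterministic algorithm, with no bound on its computations, reads the adjacency lists of the
vertices to the earlier vertices, once and in order, and remembers one of `2 ^ M` states. With
`M ≤ n ^ (2 μ + c)` it finds independent sets of `(1 + μ + ε) log_b n` vertices, or writes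
colourings with at most `r χ(G)` colours, `r (1 + μ) < 2`, with probability at most `n ^ (-c)`;
with `M ≤ n ^ (2 μ)` it can find independent sets of `(1 + μ - ε) log_b n` vertices.
-/

set_option autoImplicit false

namespace Pool.Agent.Results.MP_a87669_lc.VertexStream

open Filter Pool.Agent.H85.Online Pool.Agent.H72.Karp Pool.Agent.H61S

theorem result (p : ℝ) (h0 : 0 < p) (h1 : p < 1) :
    (∀ μ r : ℝ, 0 ≤ μ → μ ≤ 1 → 0 ≤ r → r * (1 + μ) < 2 → ∃ c : ℝ, 0 < c ∧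
      ∃ n₀ : ℕ, ∀ n : ℕ, n₀ ≤ n → ∀ (Q : Type) [Fintype Q] (B : ColAlg n Q),
      (Fintype.card Q : ℝ) ≤ (2 : ℝ) ^ ((n : ℝ) ^ (2 * μ + c)) →
      Prob p (fun G => ∃ f : Fin n → Fin n, B.Outputs G f ∧ (∀ u v, G.Adj u v → f u ≠ f v) ∧
        ((Finset.univ.image f).card : ℝ) ≤ r * G.chromaticNumber.toNat) ≤ (n : ℝ) ^ (-c)) ∧
    (∀ μ ε : ℝ, 0 ≤ μ → μ ≤ 1 → 0 < ε → ∃ c : ℝ, 0 < c ∧
      ∃ n₀ : ℕ, ∀ n : ℕ, n₀ ≤ n → ∀ (Q : Type) [Fintype Q] (A : RowAlg n Q),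
      (Fintype.card Q : ℝ) ≤ (2 : ℝ) ^ ((n : ℝ) ^ (2 * μ + c)) →
      Prob p (fun G => Indep G (A.result G) ∧
        (1 + μ + ε) * Real.logb (1 / (1 - p)) n ≤ (A.result G).card) ≤ (n : ℝ) ^ (-c)) ∧
    (∀ μ ε a : ℝ, 0 < μ → μ ≤ 1 → 0 < ε → 0 ≤ a →
      ∃ n₀ : ℕ, ∀ n : ℕ, n₀ ≤ n → ∃ (Q : Type) (_ : Fintype Q) (A : RowAlg n Q),
      (Fintype.card Q : ℝ) ≤ (2 : ℝ) ^ ((n : ℝ) ^ (2 * μ)) ∧ (∀ G, Indep G (A.result G)) ∧
      Prob p (fun G => ¬ (1 + μ - ε) * Real.logb (1 / (1 - p)) n ≤ (A.result G).card) ≤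
        (n : ℝ) ^ (-a)) := by
  refine ⟨?_, ?_, ?_⟩
  · intro μ r hμ0 hμ1 hr hrμ
    obtain ⟨c, hc, h⟩ := colour_ratio h0 h1 hμ0 hμ1 hr hrμ
    obtain ⟨n₀, hn₀⟩ := eventually_atTop.1 h
    exact ⟨c, hc, n₀, fun n hn Q _ B hQ => hn₀ n hn Q B hQ⟩
  · intro μ ε hμ0 hμ1 hε
    obtain ⟨ε', hε'⟩ : ∃ ε' : ℝ, ε' = min ε 1 := ⟨_, rfl⟩
    have hε0 : 0 < ε' := by rw [hε']; exact lt_min hε one_pos
    have hε1 : ε' ≤ 1 := by rw [hε']; exact min_le_right _ _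
    have hε2 : ε' ≤ ε := by rw [hε']; exact min_le_left _ _
    obtain ⟨n₀, hn₀⟩ := eventually_atTop.1
      ((lower h0 h1 hμ0 hμ1 hε0 hε1).and (eventually_ge_atTop 1))
    refine ⟨ε' ^ 2 / 80, by positivity, n₀, fun n hn Q _ A hQ => ?_⟩
    obtain ⟨k1, k2⟩ := hn₀ n hn
    have hn1 : (1 : ℝ) ≤ n := by exact_mod_cast k2
    have hQ2 : (2 : ℝ) ^ ((n : ℝ) ^ (2 * μ + ε' ^ 2 / 80))
        ≤ Real.exp ((n : ℝ) ^ (2 * μ + ε' ^ 2 / 80)) := by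
      rw [Real.rpow_def_of_pos (by norm_num : (0 : ℝ) < 2)]
      apply Real.exp_le_exp.2
      have h2 : Real.log 2 ≤ 1 := by
        have := Real.log_two_lt_d9
        linarith
      have h3 : (0 : ℝ) ≤ (n : ℝ) ^ (2 * μ + ε' ^ 2 / 80) := by positivity
      nlinarith
    refine le_trans (Prob_mono h0 h1 fun G hG => ⟨hG.1, le_trans ?_ hG.2⟩)
      (k1 Q A (hQ.trans hQ2))
    refine mul_le_mul_of_nonneg_right (by linarith) ?_
    refine Real.logb_nonneg ?_ hn1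
    rw [lt_div_iff₀ (by linarith)]
    linarith
  · intro μ ε a hμ0 hμ1 hε ha
    obtain ⟨ε', hε'⟩ : ∃ ε' : ℝ, ε' = min ε 1 := ⟨_, rfl⟩
    have hε0 : 0 < ε' := by rw [hε']; exact lt_min hε one_pos
    have hε1 : ε' ≤ 1 := by rw [hε']; exact min_le_right _ _
    have hε2 : ε' ≤ ε := by rw [hε']; exact min_le_left _ _
    obtain ⟨n₀, hn₀⟩ := eventually_atTop.1
      ((upper h0 h1 hμ0 hμ1 hε0 hε1 ha).and (eventually_ge_atTop 1))
    refine ⟨n₀, fun n hn => ?_⟩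
    obtain ⟨⟨Q, iQ, A, k1, k2, k3⟩, k4⟩ := hn₀ n hn
    have hn1 : (1 : ℝ) ≤ n := by exact_mod_cast k4
    refine ⟨Q, iQ, A, k1, k2, le_trans (Prob_mono h0 h1 fun G hG h => hG (le_trans ?_ h)) k3⟩
    refine mul_le_mul_of_nonneg_right (by linarith) ?_
    refine Real.logb_nonneg ?_ hn1
    rw [lt_div_iff₀ (by linarith)]
    linarith

end Pool.Agent.Results.MP_a87669_lc.VertexStream
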