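import Pool.Agent.H72.KarpS.Ratio

/-!
Let `r < 2`. Suppose that some randomised algorithm finds, with probability at least `m ^ (-c)`, an
independent set of `G(m,p)` with at least `α / r` vertices, or a proper colouring of `G(m,p)` with
at most `r χ` colours. Then the procedure `colouringS`, which calls this algorithm on
`R n ^ (K + 1)` induced subgraphs of order `m = ord γ n`, finds for all graphs on `n` vertices
outside a set of probability at most `n ^ (-a)`, with probability at least `1 - R / n` over its own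
random choices, a proper colouring with at most `(r + δ) χ` classes, one of which has at least
`α / (r + δ)` vertices.
-/

set_option autoImplicit false

namespace Pool.Agent.Results.MP_a87669_lc.WeakToStrong

open Finset Pool.Agent.H85.Online Pool.Agent.H72.Karp Pool.Agent.H72.KarpS Filter

theorem result {p : ℝ} (h0 : 0 < p) (h1 : p < 1) {r : ℝ} (hr1 : 1 ≤ r) (hr2 : r < 2) {c : ℝ}
    (hc : 0 ≤ c) {δ : ℝ} (hδ : 0 < δ) :
    ∃ (ε γ θ : ℝ) (R K : ℕ), 0 < ε ∧ 0 < γ ∧ γ ≤ 1 / 4 ∧ 0 < θ ∧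
      (∀ (A : SetAlg) (n : ℕ) (G : SimpleGraph (Fin n)) (ω : Seeds A γ R K n),
        IsColouring G (colouringS A p ε γ θ R K n G ω)) ∧
      ∀ a : ℝ, ∀ᶠ n : ℕ in atTop,
        (∀ A : SetAlg, (ord γ n : ℝ) ^ (-c) ≤ setApprox A p (ord γ n) r →
          Prob p (fun G : SimpleGraph (Fin n) =>
            (R : ℝ) / n < badFrac A p ε γ θ R K n (r + δ) G) ≤ (n : ℝ) ^ (-a)) ∧
        (∀ B : ColAlg, (ord γ n : ℝ) ^ (-c) ≤ colApprox B p (ord γ n) r →
          Prob p (fun G : SimpleGraph (Fin n) =>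
            (R : ℝ) / n < badFrac B.toSet p ε γ θ R K n (r + δ) G) ≤ (n : ℝ) ^ (-a)) := by
  obtain ⟨ε, γ, θ, R, K, hε, hγ, hγ4, hθ, h⟩ := finalS (p := p) h0 h1 hr1 hr2 hc hδ
  exact ⟨ε, γ, θ, R, K, hε, hγ, hγ4, hθ,
    fun A n G ω => colouringS_ok A p ε γ θ R K n G ω, h⟩

end Pool.Agent.Results.MP_a87669_lc.WeakToStrong
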